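import Mathlib

namespace Pool.Agent.H.MP_d359f0_an

/-- a statistical measure -/
def IsStatMeasure (μ : Set ℕ → ℝ) : Prop :=
  (∀ A, 0 ≤ μ A) ∧ (∀ A B, Disjoint A B → μ (A ∪ B) = μ A + μ B) ∧ μ Set.univ = 1 ∧
    ∀ k, μ {k} = 0

/-- the filter is generated by a statistical measure -/
def GeneratedByStat (F : Filter ℕ) : Prop :=
  ∃ μ : Set ℕ → ℝ, IsStatMeasure μ ∧ ∀ A, A ∈ F ↔ μ A = 1

/-- poor filters -/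
def Poor (F : Filter ℕ) : Prop :=
  ∀ 𝒜 : Set (Set ℕ), (∀ A ∈ 𝒜, Aᶜ ∉ F) → (𝒜.Pairwise fun A B => (A ∩ B)ᶜ ∈ F) → 𝒜.Countable

/-- conglomerated filters -/
def Conglomerated (F : Filter ℕ) : Prop :=
  ∃ D : ℕ → Set ℕ, Pairwise (fun m n => Disjoint (D m) (D n)) ∧ (∀ n, (D n)ᶜ ∈ F) ∧
    ∀ M : Set ℕ, M.Infinite → (⋃ n ∈ M, D n)ᶜ ∉ F

end Pool.Agent.H.MP_d359f0_an
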