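import Mathlib
import Pool.Agent.H.MP_d359f0_an.Defs

namespace Pool.Agent.H.MP_d359f0_an

open Set Filter

/-- restriction to the first `n` coordinates -/
def res (n : ℕ) (t : ℕ → ℕ) : List ℕ := List.ofFn fun i : Fin n => t i

lemma res_eq {n : ℕ} {s t : ℕ → ℕ} (h : res n s = res n t) {k : ℕ} (hk : k < n) : s k = t k :=
  congrFun (List.ofFn_injective h) ⟨k, hk⟩

lemma res_ev {s t : ℕ → ℕ} (h : s ≠ t) : ∀ᶠ n in atTop, res n s ≠ res n t := by
  obtain ⟨k, hk⟩ := Function.ne_iff.1 h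
  filter_upwards [eventually_gt_atTop k] with n hn h'
  exact hk (res_eq h' hn)

def dec (x : ℕ) : ℕ × Finset (List ℕ) := (Denumerable.eqv (ℕ × Finset (List ℕ))).symm x

/-- the independent family -/
def X (t : ℕ → ℕ) : Set ℕ := {x | res (dec x).1 t ∈ (dec x).2}

/-- finite intersections -/
def AA (a : Finset (ℕ → ℕ)) : Set ℕ := {x | ∀ t ∈ a, x ∈ X t}

lemma indep (a b : Finset (ℕ → ℕ)) (h : ∀ t ∈ b, t ∉ a) :
    {x | x ∈ AA a ∧ ∀ t ∈ b, x ∉ X t}.Infinite := by
  classical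
  have hev : ∀ᶠ n in atTop, ∀ t ∈ b, ∀ s ∈ a, res n s ≠ res n t := by
    rw [eventually_all_finset]
    intro t ht
    rw [eventually_all_finset]
    intro s hs
    exact res_ev fun e => h t ht (e ▸ hs)
  obtain ⟨N, hN⟩ := eventually_atTop.1 hev
  refine infinite_of_injective_forall_mem
    (f := fun n : ℕ => Denumerable.eqv (ℕ × Finset (List ℕ)) (n + N, a.image (res (n + N))))
    (fun m n e => ?_) fun n => ?_
  · have := congrArg Prod.fst ((Denumerable.eqv _).injective e)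
    simpa using this
  · simp only [AA, X, dec, mem_ofPred_eq, Equiv.symm_apply_apply]
    refine ⟨fun t ht => Finset.mem_image_of_mem _ ht, fun t ht hm => ?_⟩
    obtain ⟨s, hs, e⟩ := Finset.mem_image.1 hm
    exact hN (n + N) (by omega) t ht s hs e

/-- good finite sets: contained in a slalom -/
def Good (a : Finset (ℕ → ℕ)) : Prop := ∀ k, (a.image fun t => t k).card ≤ k + 1

lemma Good.mono {a b : Finset (ℕ → ℕ)} (h : Good b) (hab : a ⊆ b) : Good a := fun k =>
  (Finset.card_le_card (Finset.image_subset_image hab)).trans (h k)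

def Nice (I : Set (Set ℕ)) : Prop :=
  (∀ A B, A ⊆ B → B ∈ I → A ∈ I) ∧ (∀ A ∈ I, ∀ B ∈ I, A ∪ B ∈ I) ∧ (∀ A : Set ℕ, A.Finite → A ∈ I) ∧
    (∀ a, ¬ Good a → AA a ∈ I) ∧ ∀ a, Good a → AA a ∉ I

lemma nice_base : Nice {Y | ∃ L : Finset (Finset (ℕ → ℕ)), (∀ a ∈ L, ¬ Good a) ∧
    {x | x ∈ Y ∧ ∀ a ∈ L, x ∉ AA a}.Finite} := by
  classical
  refine ⟨?_, ?_, ?_, ?_, ?_⟩
  · rintro A B hAB ⟨L, h1, h2⟩
    exact ⟨L, h1, h2.subset fun x hx => ⟨hAB hx.1, hx.2⟩⟩
  · rintro A ⟨L, h1, h2⟩ B ⟨L', h1', h2'⟩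
    refine ⟨L ∪ L', fun a ha => (Finset.mem_union.1 ha).elim (h1 a) (h1' a),
      (h2.union h2').subset ?_⟩
    rintro x ⟨hx | hx, h⟩
    · exact Or.inl ⟨hx, fun a ha => h a (Finset.mem_union_left _ ha)⟩
    · exact Or.inr ⟨hx, fun a ha => h a (Finset.mem_union_right _ ha)⟩
  · intro A hA
    exact ⟨∅, by simp, hA.subset fun x hx => hx.1⟩
  · intro a ha
    refine ⟨{a}, by simpa using ha, finite_empty.subset fun x hx => ?_⟩
    exact hx.2 a (Finset.mem_singleton_self a) hx.1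
  · rintro a ha ⟨L, h1, h2⟩
    have : ∀ c ∈ L, ∃ t ∈ c, t ∉ a := fun c hc => by
      by_contra hcon
      push Not at hcon
      exact h1 c hc (ha.mono hcon)
    choose! f hf1 hf2 using this
    refine indep a (L.image f) (fun t ht => ?_) (h2.subset fun x hx => ⟨hx.1, fun c hc hxc => ?_⟩)
    · obtain ⟨c, hc, rfl⟩ := Finset.mem_image.1 ht
      exact hf2 c hc
    · exact hx.2 _ (Finset.mem_image_of_mem _ hc) (hxc _ (hf1 c hc))

theorem exists_max : ∃ I, Nice I ∧ ∀ Y, Y ∉ I → ∃ a, Good a ∧ ∃ W ∈ I, AA a ⊆ W ∪ Y := by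
  obtain ⟨I, -, hI⟩ := zorn_subset_nonempty {I | Nice I} (fun c hc hch ⟨I0, hI0⟩ => by
    refine ⟨⋃₀ c, ⟨?_, ?_, ?_, ?_, ?_⟩, fun s hs => subset_sUnion_of_mem hs⟩
    · rintro A B hAB ⟨I, hI, hB⟩
      exact ⟨I, hI, (hc hI).1 A B hAB hB⟩
    · rintro A ⟨I, hI, hA⟩ B ⟨J, hJ, hB⟩
      rcases hch.total hI hJ with h | h
      · exact ⟨J, hJ, (hc hJ).2.1 A (h hA) B hB⟩
      · exact ⟨I, hI, (hc hI).2.1 A hA B (h hB)⟩
    · exact fun A hA => ⟨I0, hI0, (hc hI0).2.2.1 A hA⟩
    · exact fun a ha => ⟨I0, hI0, (hc hI0).2.2.2.1 a ha⟩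
    · rintro a ha ⟨I, hI, h⟩
      exact (hc hI).2.2.2.2 a ha h) _ nice_base
  have hN : Nice I := hI.prop
  refine ⟨I, hN, fun Y hY => ?_⟩
  by_contra hcon
  push Not at hcon
  have sub : I ⊆ {Z | ∃ W ∈ I, Z ⊆ W ∪ Y} := fun Z hZ => ⟨Z, hZ, subset_union_left⟩
  have hN' : Nice {Z | ∃ W ∈ I, Z ⊆ W ∪ Y} := by
    refine ⟨?_, ?_, fun A hA => sub (hN.2.2.1 A hA), fun a ha => sub (hN.2.2.2.1 a ha), ?_⟩
    · rintro A B hAB ⟨W, hW, h⟩
      exact ⟨W, hW, hAB.trans h⟩
    · rintro A ⟨W, hW, h⟩ B ⟨W', hW', h'⟩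
      refine ⟨W ∪ W', hN.2.1 _ hW _ hW', union_subset (h.trans ?_) (h'.trans ?_)⟩
      · exact union_subset_union_left _ subset_union_left
      · exact union_subset_union_left _ subset_union_right
    · rintro a ha ⟨W, hW, h⟩
      exact hcon a ha W hW h
  exact hY (hI.le_of_ge hN' sub ⟨∅, hN.2.2.1 _ finite_empty, subset_union_right⟩)

noncomputable def typ (a : Finset (ℕ → ℕ)) : ℕ × Finset (List ℕ) :=
  (a.card, a.image (res (2 * a.card)))

lemma linked {a b : Finset (ℕ → ℕ)} [DecidableEq (ℕ → ℕ)] (ha : Good a) (h : typ a = typ b) :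
    Good (a ∪ b) := by
  intro k
  have h1 : a.card = b.card := congrArg Prod.fst h
  have h2 : a.image (res (2 * a.card)) = b.image (res (2 * b.card)) := congrArg Prod.snd h
  rcases lt_or_ge k (2 * a.card) with hk | hk
  · refine le_trans (Finset.card_le_card fun y hy => ?_) (ha k)
    obtain ⟨t, ht, rfl⟩ := Finset.mem_image.1 hy
    rcases Finset.mem_union.1 ht with h' | h'
    · exact Finset.mem_image_of_mem _ h'
    · have := Finset.mem_image_of_mem (res (2 * b.card)) h'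
      rw [← h2, ← h1] at this
      obtain ⟨s, hs, e⟩ := Finset.mem_image.1 this
      exact Finset.mem_image.2 ⟨s, hs, res_eq e hk⟩
  · have := Finset.card_union_le a b
    exact Finset.card_image_le.trans (by omega)

/-- the filter dual to a nice family -/
def dual (I : Set (Set ℕ)) (h : Nice I) : Filter ℕ where
  sets := {A | Aᶜ ∈ I}
  univ_sets := h.2.2.1 _ (by simp)
  sets_of_superset := fun {A B} hA hAB => h.1 _ _ (compl_subset_compl.2 hAB) hA
  inter_sets := fun {A B} hA hB => by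
    show (A ∩ B)ᶜ ∈ I
    rw [compl_inter]
    exact h.2.1 _ hA _ hB

lemma mem_dual {I : Set (Set ℕ)} (h : Nice I) (A : Set ℕ) : Aᶜ ∈ dual I h ↔ A ∈ I := by
  show Aᶜᶜ ∈ I ↔ _
  rw [compl_compl]

lemma poor_dual {I : Set (Set ℕ)} (h : Nice I)
    (hmax : ∀ Y, Y ∉ I → ∃ a, Good a ∧ ∃ W ∈ I, AA a ⊆ W ∪ Y) : Poor (dual I h) := by
  classical
  intro 𝒜 h1 h2
  have : ∀ A ∈ 𝒜, ∃ a, Good a ∧ ∃ W ∈ I, AA a ⊆ W ∪ A := fun A hA =>
    hmax A fun hI => h1 A hA ((mem_dual h A).2 hI)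
  choose! f hf using this
  refine (countable_univ (α := ℕ × Finset (List ℕ))).mono (subset_univ _) |>
    MapsTo.countable_of_injOn (f := fun A => typ (f A)) (mapsTo_univ _ _) ?_
  intro A hA B hB e
  by_contra hne
  obtain ⟨g1, W, hW, s1⟩ := hf A hA
  obtain ⟨-, W', hW', s2⟩ := hf B hB
  refine h.2.2.2.2 _ (linked g1 e) (h.1 _ _ ?_
    (h.2.1 _ (h.2.1 _ hW _ hW') _ ((mem_dual h _).1 (h2 hA hB hne))))
  intro x hx
  have x1 : x ∈ AA (f A) := fun t ht => hx t (Finset.mem_union_left _ ht)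
  have x2 : x ∈ AA (f B) := fun t ht => hx t (Finset.mem_union_right _ ht)
  rcases s1 x1 with y1 | y1
  · exact Or.inl (Or.inl y1)
  rcases s2 x2 with y2 | y2
  · exact Or.inl (Or.inr y2)
  exact Or.inr ⟨y1, y2⟩

lemma mu_empty {μ : Set ℕ → ℝ} (h : IsStatMeasure μ) : μ ∅ = 0 := by
  have := h.2.1 ∅ ∅ (by simp)
  rw [union_self] at this
  linarith

lemma mu_fiber {μ : Set ℕ → ℝ} (h : IsStatMeasure μ) {β : Type} [DecidableEq β] (f : ℕ → β)
    (S : Finset β) : μ {x | f x ∈ S} = ∑ b ∈ S, μ {x | f x = b} := by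
  induction S using Finset.induction_on with
  | empty => simpa using mu_empty h
  | insert b S hb ih =>
    rw [Finset.sum_insert hb, ← ih, ← h.2.1]
    · congr 1
      ext x
      simp
    · rw [Set.disjoint_left]
      intro x h1 h2
      exact hb ((show f x = b from h1) ▸ h2)

lemma count {μ : Set ℕ → ℝ} (h : IsStatMeasure μ) (m r : ℕ) (Y : Fin m → Set ℕ)
    (hz : ∀ S : Finset (Fin m), r < S.card → μ {x | ∀ j, x ∈ Y j ↔ j ∈ S} = 0) :
    ∑ j, μ (Y j) ≤ r := by
  classical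
  let f : ℕ → Finset (Fin m) := fun x => Finset.univ.filter fun j => x ∈ Y j
  have e1 : ∀ j, μ (Y j) = ∑ S, if j ∈ S then μ {x | f x = S} else 0 := by
    intro j
    rw [← Finset.sum_filter, ← mu_fiber h f]
    congr 1
    ext x
    simp [f]
  have e2 : ∑ S, μ {x | f x = S} = 1 := by
    rw [← mu_fiber h f, ← h.2.2.1]
    congr 1
    ext x
    simp
  simp only [e1]
  rw [Finset.sum_comm]
  calc _ ≤ ∑ S, (r : ℝ) * μ {x | f x = S} := by
        refine Finset.sum_le_sum fun S _ => ?_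
        rw [← Finset.sum_filter, Finset.sum_const, nsmul_eq_mul]
        have : Finset.univ.filter (fun j => j ∈ S) = S := by ext; simp
        rw [this]
        rcases le_or_gt S.card r with hr | hr
        · exact mul_le_mul_of_nonneg_right (by exact_mod_cast hr) (h.1 _)
        · have e : {x | f x = S} = {x | ∀ j, x ∈ Y j ↔ j ∈ S} := by
            ext x
            simp [f, Finset.ext_iff]
          rw [e, hz S hr]
          simp
    _ = r := by rw [← Finset.mul_sum, e2, mul_one]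

lemma not_gen {I : Set (Set ℕ)} (h : Nice I) : ¬ GeneratedByStat (dual I h) := by
  classical
  rintro ⟨μ, hμ, hF⟩
  have null : ∀ A, A ∈ I ↔ μ A = 0 := by
    intro A
    rw [← mem_dual h, hF]
    have := hμ.2.1 A Aᶜ disjoint_compl_right
    rw [union_compl_self, hμ.2.2.1] at this
    constructor <;> intro _ <;> linarith
  have key : ∀ k : ℕ, ∃ j : ℕ, ∀ t : ℕ → ℕ, t k = j → μ (X t) ≤ 1 / ((k : ℝ) + 1) := by
    intro k
    by_contra hcon
    push Not at hcon
    choose t ht1 ht2 using hcon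
    have hc := count hμ ((k + 1) * (k + 1) + 1) (k + 1) (fun j => X (t j)) fun S hS => by
      rw [← null]
      refine h.1 _ _ ?_ (h.2.2.2.1 (S.image fun j : Fin ((k + 1) * (k + 1) + 1) => t j) fun hg => ?_)
      · intro x hx s hs
        obtain ⟨j, hj, rfl⟩ := Finset.mem_image.1 hs
        exact (hx j).2 hj
      · have := hg k
        rw [Finset.image_image, Finset.card_image_of_injective _ (fun i j e => ?_)] at this
        · omega
        · simp only [Function.comp, ht1] at e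
          exact Fin.ext e
    have hs : ∑ _j : Fin ((k + 1) * (k + 1) + 1), 1 / ((k : ℝ) + 1) ≤
        ∑ j : Fin ((k + 1) * (k + 1) + 1), μ (X (t j)) :=
      Finset.sum_le_sum fun j _ => (ht2 j).le
    rw [Finset.sum_const, Finset.card_univ, Fintype.card_fin, nsmul_eq_mul] at hs
    have h3 := hs.trans hc
    push_cast at h3
    rw [mul_one_div, div_le_iff₀ (by positivity)] at h3
    linarith
  choose t ht using key
  have h0 : μ (X t) = 0 := by
    refine le_antisymm (le_of_forall_pos_le_add fun e he => ?_) (hμ.1 _)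
    obtain ⟨n, hn⟩ := exists_nat_one_div_lt he
    linarith [ht n t rfl]
  refine h.2.2.2.2 {t} (fun k => by simp) (h.1 _ _ ?_ ((null _).2 h0))
  exact fun x hx => hx t (Finset.mem_singleton_self t)

theorem main : ∃ F : Filter ℕ, F.NeBot ∧ F ≤ cofinite ∧ Poor F ∧ ¬ GeneratedByStat F := by
  obtain ⟨I, h, hmax⟩ := exists_max
  refine ⟨dual I h, ⟨fun e => ?_⟩, fun A hA => h.2.2.1 _ hA, poor_dual h hmax, not_gen h⟩
  have : (univ : Set ℕ)ᶜ ∈ dual I h := by rw [e]; exact mem_bot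
  exact h.2.2.2.2 ∅ (fun k => by simp) (h.1 _ _ (subset_univ _) ((mem_dual h _).1 this))

theorem not_congl {F : Filter ℕ} (h : Poor F) : ¬ Conglomerated F := by
  rintro ⟨D, hd, hI, hG⟩
  let M : (ℕ → ℕ) → Set ℕ := fun t => range fun n => Encodable.encode (res n t)
  have len : ∀ {m n : ℕ} {s t : ℕ → ℕ}, res m s = res n t → m = n := fun e => by
    simpa [res] using congrArg List.length e
  have Minf : ∀ t, (M t).Infinite := fun t =>
    infinite_range_of_injective fun m n e => len (Encodable.encode_injective e)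
  have Mfin : ∀ s t, s ≠ t → (M s ∩ M t).Finite := by
    intro s t hst
    obtain ⟨N, hN⟩ := eventually_atTop.1 (res_ev hst)
    refine ((finite_lt_nat N).image fun n => Encodable.encode (res n s)).subset ?_
    rintro _ ⟨⟨m, rfl⟩, ⟨n, e⟩⟩
    have e' := Encodable.encode_injective e
    have := len e'
    subst this
    exact ⟨n, not_le.1 fun hn => hN n hn e'.symm, rfl⟩
  let Y : (ℕ → ℕ) → Set ℕ := fun t => ⋃ n ∈ M t, D n
  have Yad : ∀ s t, s ≠ t → (Y s ∩ Y t)ᶜ ∈ F := by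
    intro s t hst
    have : ⋂ n ∈ M s ∩ M t, (D n)ᶜ ∈ F := (biInter_mem (Mfin s t hst)).2 fun n _ => hI n
    refine mem_of_superset this fun x hx hx' => ?_
    obtain ⟨m, hm, x1⟩ := mem_iUnion₂.1 hx'.1
    obtain ⟨n, hn, x2⟩ := mem_iUnion₂.1 hx'.2
    have : m = n := by
      by_contra hne
      exact Set.disjoint_left.1 (hd hne) x1 x2
    subst this
    exact mem_iInter₂.1 hx m ⟨hm, hn⟩ x1
  have Yinj : Function.Injective Y := by
    intro s t e
    by_contra hne
    have := Yad s t hne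
    rw [e, inter_self] at this
    exact hG _ (Minf t) this
  have hc := h (range Y) (by rintro _ ⟨t, rfl⟩; exact hG _ (Minf t)) (by
    rintro _ ⟨s, rfl⟩ _ ⟨t, rfl⟩ hne
    exact Yad s t fun e => hne (e ▸ rfl))
  have : Countable (ℕ → ℕ) := by
    have := hc.to_subtype
    exact (rangeFactorization_injective.2 Yinj).countable
  obtain ⟨g, hg⟩ := exists_surjective_nat (ℕ → ℕ)
  obtain ⟨n, hn⟩ := hg fun k => g k k + 1
  have := congrFun hn n
  omega

end Pool.Agent.H.MP_d359f0_an
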